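import Pool.Agent.H447R3.SpDefs

/-!
# Diagonal actions on products and powers: the statements
-/

set_option autoImplicit false

open CategoryTheory AlgebraicGeometry Finset

universe u v

namespace Pool.Agent.W5h77.CP

open Pool.Agent.H914 VarClass Obj WeilCohomology

variable {k : Type u} [Field k] {𝒱 : VarClass k}

/-- The power `X ^ (n + 1)`. -/
noncomputable def power (X : 𝒱.Obj) : ℕ → 𝒱.Obj
  | 0 => X
  | n + 1 => X.prod (power X n)

/-- `f × g` on `X × Y`. -/
noncomputable def times {X Y : 𝒱.Obj} (f : X ⟶ X) (g : Y ⟶ Y) : X.prod Y ⟶ X.prod Y :=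
  Obj.lift (fst X Y ≫ f) (snd X Y ≫ g)

/-- `f × f × ⋯ × f` on `X ^ (n + 1)`. -/
noncomputable def powerMap {X : 𝒱.Obj} (f : X ⟶ X) : ∀ n : ℕ, power X n ⟶ power X n
  | 0 => f
  | n + 1 => times f (powerMap f n)

variable {ops : CycleOps 𝒱} (W : WeilCohomology.{u, v} ops) {X Y : 𝒱.Obj} {G : Type} [Group G]

/-- The pull-back under an endomorphism. -/
noncomputable def pb (f : X ⟶ X) (x : W.H X) : W.H X := W.map f x

/-- The action of a cycle on `X × X` on the cohomology of `X`. -/
noncomputable def cycAct (P : (X.prod X).Cycles) (x : W.H X) : W.H X :=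
  W.corr (W.cl (X.prod X) P) x

/-- The sum of the pull-backs under the endomorphisms `m g`. -/
noncomputable def sumPb [Fintype G] (m : G → (X ⟶ X)) (x : W.H X) : W.H X :=
  ∑ g, pb W (m g) x

/-- The automorphisms preserve the orientation `H^{2 dim X}(X) → K`. -/
def Orients (a : G →* Aut X) : Prop :=
  ∀ (g : G) (x : W.H X), W.tr X (pb W (a g).hom x) = W.tr X x

/-- The homomorphism `f` is equivariant. -/
def Equivariant (a : G →* Aut X) (b : G →* Aut Y) (f : W.H X →ₗ[W.K] W.H Y) : Prop :=
  ∀ g x, f (pb W (a g).hom x) = pb W (b g).hom (f x)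

/-- Every nonzero element of `H(X)` is mapped to a nonzero element by some equivariant homomorphism
`H(X) → H(Y)`; equivalently, the irreducible representations which occur in `H(X)` occur in
`H(Y)`. -/
def Occurs (a : G →* Aut X) (b : G →* Aut Y) : Prop :=
  ∀ v : W.H X, v ≠ 0 → ∃ f : W.H X →ₗ[W.K] W.H Y, Equivariant W a b f ∧ f v ≠ 0

/-- The sign conjecture for the quotient of `X` by the automorphisms `m g`: some cycle on `X × X`
acts as the sum of the pull-backs by the `m g` in the even degrees, and as zero in the odd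
degrees. -/
def SignQuot [Fintype G] (m : G → (X ⟶ X)) : Prop :=
  ∃ P, (X.prod X).IsCyc X.dim P ∧ ∀ i, ∀ x ∈ W.gr X i,
    (Even i → cycAct W P x = sumPb W m x) ∧ (Odd i → cycAct W P x = 0)

/-- The sign conjecture for the quotient of `X × Y` by the diagonal action of `G`. -/
def DiagonalSign [Fintype G] (a : G →* Aut X) (b : G →* Aut Y) : Prop :=
  SignQuot W fun g => times (a g).hom (b g).hom

/-- The sign conjecture for the quotient of `X ^ (n + 1)` by the diagonal action of `G`. -/
def PowerSign [Fintype G] (a : G →* Aut X) (n : ℕ) : Prop :=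
  SignQuot W fun g => powerMap (a g).hom n

end Pool.Agent.W5h77.CP
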