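import Pool.Agent.W5h77.CP.Main
import Pool.Agent.W5h77.CP.Stmt

/-!
# Comparison of the statements
-/

set_option autoImplicit false

open CategoryTheory AlgebraicGeometry Finset

universe u v

namespace Pool.Agent.W5h77.CP

open Pool.Agent.H914 VarClass Obj WeilCohomology Pool.Agent.H447 Pool.Agent.X252.SCK
  Pool.Agent.X252.SCT

variable {k : Type u} [Field k] {𝒱 : VarClass k} {ops : CycleOps 𝒱}
  {W : WeilCohomology.{u, v} ops} {X Y Z : 𝒱.Obj} {G : Type} [Group G] [Fintype G]

lemma quotient_iff (a : G →* Aut X) :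
    QuotientSign W a ↔ SignQuot (G := G) W (X := X) fun g => (a g).hom := by
  have h0 : ∀ x : W.H X, ∑ᶠ h : (⊤ : Subgroup G), gPull W a h.1 x =
      ∑ g, W.map (a g).hom x := by
    intro x
    rw [nm_apply, nm, LinearMap.sum_apply]
    rfl
  constructor
  · rintro ⟨P, hP, h⟩
    refine ⟨P, hP, fun i x hx => ⟨fun hi => ?_, fun hi => ?_⟩⟩
    · exact ((h i x hx).1 hi).trans (h0 x)
    · exact (h i x hx).2 (Nat.not_even_iff_odd.2 hi)
  · rintro ⟨P, hP, h⟩
    refine ⟨P, hP, fun i x hx => ⟨fun hi => ?_, fun hi => ?_⟩⟩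
    · rw [h0]
      exact (h i x hx).1 hi
    · exact (h i x hx).2 (Nat.not_even_iff_odd.1 hi)

omit [Fintype G] in
lemma pw_eq (X : 𝒱.Obj) (n : ℕ) : pw X n = power X n := by
  induction n with
  | zero => rfl
  | succ n ih => rw [pw, power, ih]

lemma signQuot_prod (a : G →* Aut X) (b : G →* Aut Y) :
    QuotientSign W (prodAct a b) ↔
      SignQuot (G := G) W fun g => times (a g).hom (b g).hom := quotient_iff _

/-- The diagonal action on a power. -/
lemma exists_act (a : G →* Aut X) (n : ℕ) : ∃ c : G →* Aut (power X n),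
    (∀ g, (c g).hom = powerMap (a g).hom n) ∧ (Oriented W a → Oriented W c) ∧
    OccursIn W a c := by
  have key : ∀ n : ℕ, ∃ c : G →* Aut (power X n), (∀ g, (c g).hom = powerMap (a g).hom n) ∧
      (Oriented W a → Oriented W c) ∧ ∃ (p : power X n ⟶ X) (d : X ⟶ power X n),
        d ≫ p = 𝟙 X ∧ ∀ g, (c g).hom ≫ p = p ≫ (a g).hom := by
    intro n
    induction n with
    | zero => exact ⟨a, fun _ => rfl, id, 𝟙 X, 𝟙 X, Category.comp_id _, fun g =>
        (Category.comp_id (a g).hom).trans (Category.id_comp (a g).hom).symm⟩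
    | succ n ih =>
      obtain ⟨c, hc, ho, -, d, -, -⟩ := ih
      refine ⟨prodAct a c, fun g => ?_, fun h => oriented_prod h (ho h), fst X (power X n),
        Obj.lift (𝟙 X) d, Obj.lift_fst _ _, fun g => prodMap_fst _ _⟩
      change times (a g).hom (c g).hom = times (a g).hom (powerMap (a g).hom n)
      rw [hc]
  obtain ⟨c, hc, ho, p, d, hd, hp⟩ := key n
  refine ⟨c, hc, ho, fun v hv => ⟨(W.map p).toLinearMap, fun g x => ?_, fun h => hv ?_⟩⟩
  · change W.map p (W.map (a g).hom x) = W.map (c g).hom (W.map p x)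
    rw [← W.map_comp, ← W.map_comp, hp]
  · have h1 : W.map d (W.map p v) = 0 := by
      have h2 : W.map p v = 0 := h
      rw [h2, map_zero]
    rwa [← W.map_comp, hd, W.map_id] at h1

lemma sign_power (h : SignStd W X) (n : ℕ) : SignStd W (power X n) := by
  induction n with
  | zero => exact h
  | succ n ih => exact sign_prod h ih

/-- **The theorem with the short definitions.** -/
theorem final (a : G →* Aut X) (b : G →* Aut Y) (hb : Orients W b) :
    (Occurs W a b → DiagonalSign W a b → SignStd W X) ∧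
    (Orients W a → Occurs W a b → Occurs W b a →
      (DiagonalSign W a b ↔ SignStd W X ∧ SignStd W Y)) ∧
    ∀ n : ℕ, SignStd W Y ↔ PowerSign W b (n + 1) := by
  unfold DiagonalSign PowerSign
  refine ⟨fun hab h => ?_, fun ha hab hba => ?_, fun n => ?_⟩
  · exact sign_of_quotient a b hb hab ((signQuot_prod a b).2 h)
  · rw [← signQuot_prod a b]
    exact sign_both a b ha hb hab hba
  · obtain ⟨c, hc, ho, hoc⟩ := exists_act (W := W) b n
    have e : (SignQuot (G := G) W fun g => powerMap (b g).hom (n + 1)) ↔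
        QuotientSign W (prodAct b c) := by
      rw [signQuot_prod]
      have e1 : (fun g : G => powerMap (b g).hom (n + 1)) =
          fun g => times (b g).hom (c g).hom := by
        funext g
        rw [hc]
        rfl
      rw [← e1]
      rfl
    rw [e]
    exact ⟨fun h => quotient_of_sign _ (sign_prod h (sign_power h n)),
      fun h => sign_of_quotient b c (ho hb) hoc h⟩

end Pool.Agent.W5h77.CP
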