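import Pool.Agent.X252.SCT
import Pool.Agent.H447R3.SpDefs

/-!
# Diagonal actions on products and powers
-/

set_option autoImplicit false

open CategoryTheory AlgebraicGeometry Finset

universe u v

namespace Pool.Agent.W5h77.CP

open Pool.Agent.H914 VarClass Obj WeilCohomology

variable {k : Type u} [Field k] {𝒱 : VarClass k}

/-- `f × g : X × Y ⟶ Z × W`. -/
noncomputable def prodMap {X Y Z W : 𝒱.Obj} (f : X ⟶ Z) (g : Y ⟶ W) : X.prod Y ⟶ Z.prod W :=
  Obj.lift (fst X Y ≫ f) (snd X Y ≫ g)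

lemma prodMap_fst {X Y Z W : 𝒱.Obj} (f : X ⟶ Z) (g : Y ⟶ W) :
    prodMap f g ≫ fst Z W = fst X Y ≫ f := Obj.lift_fst _ _

lemma prodMap_snd {X Y Z W : 𝒱.Obj} (f : X ⟶ Z) (g : Y ⟶ W) :
    prodMap f g ≫ snd Z W = snd X Y ≫ g := Obj.lift_snd _ _

lemma hom_ext' {X Y Z : 𝒱.Obj} {f g : Z ⟶ X.prod Y} (h1 : f ≫ fst X Y = g ≫ fst X Y)
    (h2 : f ≫ snd X Y = g ≫ snd X Y) : f = g := by
  have e1 : (f ≫ fst X Y).hom = (g ≫ fst X Y).hom := by rw [h1]
  have e2 : (f ≫ snd X Y).hom = (g ≫ snd X Y).hom := by rw [h2]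
  apply SmVar.hom_ext
  exact Limits.pullback.hom_ext e1 e2

lemma prodMap_comp {X Y Z W U V : 𝒱.Obj} (f : X ⟶ Z) (g : Y ⟶ W) (f' : Z ⟶ U) (g' : W ⟶ V) :
    prodMap f g ≫ prodMap f' g' = prodMap (f ≫ f') (g ≫ g') := by
  apply hom_ext'
  · rw [Category.assoc, prodMap_fst, ← Category.assoc, prodMap_fst, prodMap_fst, Category.assoc]
  · rw [Category.assoc, prodMap_snd, ← Category.assoc, prodMap_snd, prodMap_snd, Category.assoc]

lemma prodMap_id {X Y : 𝒱.Obj} : prodMap (𝟙 X) (𝟙 Y) = 𝟙 (X.prod Y) := by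
  apply hom_ext'
  · rw [prodMap_fst, Category.comp_id, Category.id_comp]
  · rw [prodMap_snd, Category.comp_id, Category.id_comp]

section
variable {X Y : 𝒱.Obj} {G : Type} [Group G]

/-- The diagonal action on `X × Y`. -/
noncomputable def prodAct (a : G →* Aut X) (b : G →* Aut Y) : G →* Aut (X.prod Y) where
  toFun g :=
    { hom := prodMap (a g).hom (b g).hom
      inv := prodMap (a g).inv (b g).inv
      hom_inv_id := (prodMap_comp _ _ _ _).trans ((congrArg₂ prodMap (Iso.hom_inv_id (a g))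
        (Iso.hom_inv_id (b g))).trans prodMap_id)
      inv_hom_id := (prodMap_comp _ _ _ _).trans ((congrArg₂ prodMap (Iso.inv_hom_id (a g))
        (Iso.inv_hom_id (b g))).trans prodMap_id) }
  map_one' := by
    apply Iso.ext
    change prodMap (a 1).hom (b 1).hom = 𝟙 (X.prod Y)
    rw [map_one, map_one]
    exact prodMap_id
  map_mul' g h := by
    apply Iso.ext
    change prodMap (a (g * h)).hom (b (g * h)).hom =
      prodMap (a h).hom (b h).hom ≫ prodMap (a g).hom (b g).hom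
    rw [map_mul, map_mul, prodMap_comp]
    rfl

/-- The power `X ^ (n + 1)`. -/
noncomputable def pw (X : 𝒱.Obj) : ℕ → 𝒱.Obj
  | 0 => X
  | n + 1 => X.prod (pw X n)

/-- The diagonal action on `X ^ (n + 1)`. -/
noncomputable def pwAct (a : G →* Aut X) : ∀ n : ℕ, G →* Aut (pw X n)
  | 0 => a
  | n + 1 => prodAct a (pwAct a n)

end

section
variable {ops : CycleOps 𝒱} (W : WeilCohomology.{u, v} ops) {X Y : 𝒱.Obj} {G : Type} [Group G]

/-- The automorphisms preserve the orientation `H^{2 dim X}(X) → K`. -/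
def Oriented (a : G →* Aut X) : Prop :=
  ∀ (g : G) (x : W.H X), W.tr X (W.map (a g).hom x) = W.tr X x

/-- Every nonzero element of `H(X)` is mapped to a nonzero element by some equivariant homomorphism
`H(X) → H(Y)`; equivalently, the irreducible representations which occur in `H(X)` occur in
`H(Y)`. -/
def OccursIn (a : G →* Aut X) (b : G →* Aut Y) : Prop :=
  ∀ v : W.H X, v ≠ 0 → ∃ f : W.H X →ₗ[W.K] W.H Y,
    (∀ g x, f (W.map (a g).hom x) = W.map (b g).hom (f x)) ∧ f v ≠ 0

/-- The sign conjecture for `X / G`: some cycle on `X × X` acts as the sum of the pull-backs by the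
elements of `G` in the even degrees, and as zero in the odd degrees. -/
def QuotientSign (a : G →* Aut X) : Prop :=
  Pool.Agent.X252.SCT.QuotientAlg W a ⊤ Pool.Agent.X252.SCT.evens

end

end Pool.Agent.W5h77.CP
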