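import Pool.Agent.H914R2.Core0

/-!
# A central operator attached to the character of a representation
-/

set_option autoImplicit false

open Finset TensorProduct

namespace Pool.Agent.W5h77.CP

variable {K : Type*} [Field K] [CharZero K] {V N : Type*} [AddCommGroup V] [Module K V]
  [Module.Finite K V] [AddCommGroup N] [Module K N] [Module.Finite K N]
  {G : Type} [Group G] [Fintype G]

/-- The operator `∑_g χ(g) g`, where `χ` is the character of another representation. -/
noncomputable def chOp (ρ : G →* Module.End K V) (σ : G →* Module.End K N) : Module.End K V :=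
  ∑ g : G, LinearMap.trace K N (σ g) • ρ g

omit [CharZero K] [Module.Finite K V] [Module.Finite K N] in
lemma chOp_comm (ρ : G →* Module.End K V) (σ : G →* Module.End K N) (h : G) :
    chOp ρ σ * ρ h = ρ h * chOp ρ σ := by
  unfold chOp
  rw [Finset.sum_mul, Finset.mul_sum]
  refine Fintype.sum_equiv (MulAut.conj h⁻¹).toEquiv _ _ fun g => ?_
  have e1 : LinearMap.trace K N (σ ((MulAut.conj h⁻¹) g)) = LinearMap.trace K N (σ g) := by
    rw [MulAut.conj_apply, map_mul, LinearMap.trace_mul_comm, ← map_mul]
    congr 2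
    group
  change _ = ρ h * (LinearMap.trace K N (σ ((MulAut.conj h⁻¹) g)) • ρ ((MulAut.conj h⁻¹) g))
  rw [e1, smul_mul_assoc, mul_smul_comm, ← map_mul, ← map_mul, MulAut.conj_apply]
  congr 2
  group

/-- **The operator is injective** if the equivariant homomorphisms to the second representation,
which carries an invariant nondegenerate bilinear form, separate the vectors. -/
theorem chOp_injective (ρ : G →* Module.End K V) (σ : G →* Module.End K N)
    (t : N →ₗ[K] N →ₗ[K] K) (ht : ∀ g x y, t (σ g x) (σ g y) = t x y)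
    (hnd : ∀ x, (∀ y, t y x = 0) → x = 0)
    (hsep : ∀ v : V, v ≠ 0 → ∃ f : V →ₗ[K] N, (∀ g x, f (ρ g x) = σ g (f x)) ∧ f v ≠ 0) :
    Function.Injective (chOp ρ σ) := by
  classical
  rw [injective_iff_map_eq_zero]
  intro v hv
  by_contra hv0
  obtain ⟨f, hf, hfv⟩ := hsep v hv0
  set S : Submodule K V := LinearMap.ker (chOp ρ σ) with hS
  have hst : ∀ g, ∀ x ∈ S, ρ g x ∈ S := by
    intro g x hx
    rw [hS, LinearMap.mem_ker] at hx ⊢
    have h1 := LinearMap.congr_fun (chOp_comm ρ σ g) x
    rw [Module.End.mul_apply, Module.End.mul_apply, hx, map_zero] at h1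
    exact h1
  let r : G →* Module.End K S :=
    { toFun := fun g => (ρ g).restrict (hst g)
      map_one' := by
        ext x
        rw [LinearMap.restrict_coe_apply, map_one]
        rfl
      map_mul' := fun g h => by
        ext x
        rw [LinearMap.restrict_coe_apply, map_mul]
        rfl }
  have hr : ∀ g (x : S), ((r g x : S) : V) = ρ g x := fun g x => rfl
  let c : K := ((Fintype.card G : ℕ) : K)
  have hc : c ≠ 0 := by
    change ((Fintype.card G : ℕ) : K) ≠ 0
    exact_mod_cast Fintype.card_ne_zero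
  let p : Module.End K (N ⊗[K] S) := c⁻¹ • ∑ g : G, TensorProduct.map (σ g) (r g)
  have hmul : ∀ g h, (TensorProduct.map (σ g) (r g) : Module.End K (N ⊗[K] S)) *
      TensorProduct.map (σ h) (r h) = TensorProduct.map (σ (g * h)) (r (g * h)) := by
    intro g h
    rw [← TensorProduct.map_mul, map_mul, map_mul]
  have hp : p * p = p := by
    have h1 : (∑ g : G, (TensorProduct.map (σ g) (r g) : Module.End K (N ⊗[K] S))) *
        ∑ g : G, TensorProduct.map (σ g) (r g) =
        c • ∑ g : G, TensorProduct.map (σ g) (r g) := by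
      rw [Finset.sum_mul]
      have h2 : ∀ g, (TensorProduct.map (σ g) (r g) : Module.End K (N ⊗[K] S)) *
          ∑ h : G, TensorProduct.map (σ h) (r h) = ∑ h : G, TensorProduct.map (σ h) (r h) := by
        intro g
        rw [Finset.mul_sum]
        refine Fintype.sum_equiv (Equiv.mulLeft g) _ _ fun h => ?_
        rw [hmul]
        rfl
      rw [Finset.sum_congr rfl fun g _ => h2 g, Finset.sum_const, Finset.card_univ,
        ← Nat.cast_smul_eq_nsmul K]
    change (c⁻¹ • _) * (c⁻¹ • _) = _
    rw [smul_mul_smul_comm, h1, smul_smul]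
    change _ = c⁻¹ • _
    congr 1
    field_simp
  have htr : LinearMap.trace K (N ⊗[K] S) p = 0 := by
    have h1 : LinearMap.trace K (N ⊗[K] S) p =
        c⁻¹ * LinearMap.trace K S (∑ g : G, LinearMap.trace K N (σ g) • r g) := by
      change LinearMap.trace K (N ⊗[K] S) (c⁻¹ • _) = _
      rw [map_smul, smul_eq_mul, map_sum, map_sum]
      congr 1
      refine Finset.sum_congr rfl fun g _ => ?_
      rw [LinearMap.trace_tensorProduct', map_smul, smul_eq_mul]
    have h2 : ∑ g : G, LinearMap.trace K N (σ g) • r g = 0 := by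
      ext x
      have h3 : chOp ρ σ x.1 = 0 := x.2
      rw [chOp, LinearMap.sum_apply] at h3
      rw [LinearMap.sum_apply, Submodule.coe_sum, LinearMap.zero_apply, Submodule.coe_zero, ← h3]
      rfl
    rw [h1, h2, map_zero, mul_zero]
  have hp0 : p = 0 := Pool.Agent.H914.eq_zero_of_idem_of_trace_eq_zero hp htr
  let β : N ⊗[K] S →ₗ[K] K := TensorProduct.lift ((t.compl₂ f).compl₂ S.subtype)
  have hβ : ∀ y (x : S), β (y ⊗ₜ x) = t y (f x) := fun y x => rfl
  have hβp : β ∘ₗ p = β := by
    apply TensorProduct.ext'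
    intro y x
    change β ((c⁻¹ • ∑ g : G, TensorProduct.map (σ g) (r g)) (y ⊗ₜ x)) = _
    rw [LinearMap.smul_apply, map_smul, LinearMap.sum_apply, map_sum]
    have h1 : ∀ g, β (TensorProduct.map (σ g) (r g) (y ⊗ₜ x)) = t y (f x) := by
      intro g
      rw [TensorProduct.map_tmul, hβ, hr, hf, ht]
    rw [Finset.sum_congr rfl fun g _ => h1 g, Finset.sum_const, Finset.card_univ,
      ← Nat.cast_smul_eq_nsmul K, smul_smul, hβ]
    change (c⁻¹ * c) • _ = _
    rw [inv_mul_cancel₀ hc, one_smul]
  rw [hp0, LinearMap.comp_zero] at hβp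
  apply hfv
  apply hnd
  intro y
  have h1 := LinearMap.congr_fun hβp (y ⊗ₜ ⟨v, hv⟩)
  rw [hβ] at h1
  exact h1.symm

end Pool.Agent.W5h77.CP
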