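import Pool.Agent.W5h77.CP.Tr
import Pool.Agent.W5h77.CP.Lin
import Pool.Agent.W5h77.CP.Defs

/-!
# The sign conjecture for diagonal quotients
-/

set_option autoImplicit false

open CategoryTheory AlgebraicGeometry Finset

universe u v

namespace Pool.Agent.W5h77.CP

open Pool.Agent.H914 VarClass Obj WeilCohomology Pool.Agent.H447 Pool.Agent.X252.SCK
  Pool.Agent.X252.SCT Pool.Agent.W5h93.GR Pool.Agent.TH133.PW Pool.Agent.W550.B

variable {k : Type u} [Field k] {𝒱 : VarClass k} {ops : CycleOps 𝒱}
  {W : WeilCohomology.{u, v} ops} {X Y Z : 𝒱.Obj}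

/-- Pull-backs are algebraic. -/
lemma kop_map (f : Z ⟶ X) : (W.map f).toLinearMap ∈ KOp W X Z 0 := by
  have h1 : (W.map f).toLinearMap =
      W.corr (W.cl _ (ops.push (Obj.lift f (𝟙 Z)) Z.V.fundCycle)) := by
    ext x
    rw [W.cl_push, W.cl_fund, corr_apply, ← W.push_mul, ← W.push_comp, ← W.map_comp]
    have e1 : Obj.lift f (𝟙 Z) ≫ snd X Z = 𝟙 Z := Obj.lift_snd _ _
    have e2 : Obj.lift f (𝟙 Z) ≫ fst X Z = f := Obj.lift_fst _ _
    rw [e1, e2, W.push_id, one_mul]
    rfl
  rw [h1]
  exact KOp.gen (p := X.dim) (by ring)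
    (ops.push_mem _ Z.V.fundCycle_mem (by rw [dim_prod]; omega))

lemma scal_even : scal (W.isInternal X) (fun d => if Even d then (1 : W.K) else 0) =
    (2 : W.K)⁻¹ • (1 + par (W.isInternal X)) := by
  apply gr_ext (W.isInternal X)
  intro i x hx
  rw [scal_apply _ _ hx, LinearMap.smul_apply, LinearMap.add_apply, par, scal_apply _ _ hx,
    Module.End.one_apply]
  by_cases hi : Even i
  · rw [if_pos hi, hi.neg_one_pow, one_smul, ← two_smul W.K x, smul_smul,
      inv_mul_cancel₀ two_ne_zero, one_smul]
  · rw [if_neg hi, (Nat.not_even_iff_odd.1 hi).neg_one_pow, zero_smul, neg_one_smul,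
      add_neg_cancel, smul_zero]

/-- The sign conjecture in terms of the parity operator. -/
lemma sign_iff_par : SignStd W X ↔ par (W.isInternal X) ∈ KOp W X X 0 := by
  rw [signStd_iff_kop, scal_even]
  constructor
  · intro h
    have h1 := Submodule.sub_mem _ (Submodule.smul_mem _ (2 : W.K) h) (KOp.id X)
    rw [smul_smul, mul_inv_cancel₀ two_ne_zero, one_smul] at h1
    have e : (1 + par (W.isInternal X) : Module.End W.K (W.H X)) - LinearMap.id =
        par (W.isInternal X) := add_sub_cancel_left _ _
    rwa [e] at h1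
  · intro h
    exact Submodule.smul_mem _ _ (Submodule.add_mem _ (KOp.id X) h)

lemma sign_prod (hX : SignStd W X) (hY : SignStd W Y) : SignStd W (X.prod Y) := by
  rw [sign_iff_par] at hX hY ⊢
  rw [par_ext]
  exact KOp.cast (KOp.ext hX hY) (by ring)

variable {G : Type} [Group G] [Fintype G]

/-- The sum of the pull-backs by the elements of the group. -/
noncomputable def nm (W : WeilCohomology.{u, v} ops) (a : G →* Aut X) :
    Module.End W.K (W.H X) :=
  ∑ g : G, (W.map (a g).hom).toLinearMap

lemma kop_nm (a : G →* Aut X) : nm W a ∈ KOp W X X 0 :=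
  Submodule.sum_mem _ fun _ _ => kop_map _

lemma nm_apply (a : G →* Aut X) (x : W.H X) :
    ∑ᶠ h : (⊤ : Subgroup G), gPull W a h.1 x = nm W a x := by
  classical
  rw [finsum_eq_sum_of_fintype, nm, LinearMap.sum_apply]
  exact Fintype.sum_equiv Subgroup.topEquiv.toEquiv _ _ fun g => rfl

/-- The sign conjecture for the quotient gives an algebraic operator. -/
lemma par_nm_mem (a : G →* Aut X) (h : QuotientSign W a) :
    par (W.isInternal X) * nm W a ∈ KOp W X X 0 := by
  obtain ⟨P, hP, hP'⟩ := h
  have h1 : par (W.isInternal X) * nm W a =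
      (2 : W.K) • W.corr (W.cl (X.prod X) P) - nm W a := by
    apply gr_ext (W.isInternal X)
    intro i x hx
    have hmem : nm W a x ∈ W.gr X i := by
      rw [nm, LinearMap.sum_apply]
      exact Submodule.sum_mem _ fun g _ => W.map_mem _ hx
    rw [Module.End.mul_apply, LinearMap.sub_apply, LinearMap.smul_apply, par,
      scal_apply _ _ hmem]
    by_cases hi : Even i
    · have h2 := (hP' i x hx).1 hi
      rw [nm_apply] at h2
      change W.corr (W.cl (X.prod X) P) x = _ at h2
      rw [h2, hi.neg_one_pow, one_smul, two_smul]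
      abel
    · have h2 := (hP' i x hx).2 hi
      change W.corr (W.cl (X.prod X) P) x = _ at h2
      rw [h2, (Nat.not_even_iff_odd.1 hi).neg_one_pow, smul_zero, zero_sub, neg_one_smul]
  rw [h1]
  exact Submodule.sub_mem _ (Submodule.smul_mem _ _ (KOp.gen (by ring) hP)) (kop_nm a)

/-- The sign conjecture for `X` implies the sign conjecture for the quotient. -/
lemma quotient_of_sign (a : G →* Aut X) (h : SignStd W X) : QuotientSign W a := by
  obtain ⟨P, hP, hP'⟩ := h
  have h1 : DegreesAlg W X evens := ⟨P, hP, fun j x hx =>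
    ⟨fun hj => (hP' j x hx).trans (if_pos hj), fun hj => (hP' j x hx).trans (if_neg hj)⟩⟩
  rw [QuotientSign, ← nA_mem_idT a]
  have h2 := (idT W a evens).mul_mem_left (Pool.Agent.X252.GA.nA ⊤) ((one_mem_idT a).2 h1)
  rwa [mul_one] at h2

lemma map_prodMap (f : X ⟶ X) (g : Y ⟶ Y) :
    (W.map (prodMap f g)).toLinearMap =
      extOp W (W.map f).toLinearMap (W.map g).toLinearMap := by
  apply ext_kunneth_lin
  intro x y
  rw [extOp_tmul]
  change W.map (prodMap f g) (W.map (fst X Y) x * W.map (snd X Y) y) = _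
  rw [map_mul, ← W.map_comp, ← W.map_comp, prodMap_fst, prodMap_snd, W.map_comp, W.map_comp]
  rfl

/-- The operator `∑_g χ(g) g` on the cohomology of `X`, where `χ` is the character of the
cohomology of `Y`. -/
lemma chOp_eq (a : G →* Aut X) (b : G →* Aut Y) : chOp (act W a) (act W b) =
    ∑ g : G, LinearMap.trace W.K (W.H Y) (W.map (b g).hom).toLinearMap •
      (W.map (a g).hom).toLinearMap := by
  unfold chOp
  refine Fintype.sum_equiv (Equiv.inv G) _ _ fun g => ?_
  rfl

lemma kop_chOp (a : G →* Aut X) (b : G →* Aut Y) :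
    chOp (act W a) (act W b) ∈ KOp W X X 0 := by
  rw [chOp_eq]
  exact Submodule.sum_mem _ fun g _ => Submodule.smul_mem _ _ (kop_map _)

/-- The partial trace over `Y`. -/
theorem par_chOp_mem (a : G →* Aut X) (b : G →* Aut Y)
    (h : par (W.isInternal (X.prod Y)) * nm W (prodAct a b) ∈ KOp W (X.prod Y) (X.prod Y) 0) :
    par (W.isInternal X) * chOp (act W a) (act W b) ∈ KOp W X X 0 := by
  have h1 : par (W.isInternal (X.prod Y)) * nm W (prodAct a b) =
      ∑ g : G, extOp W (par (W.isInternal X) * (W.map (a g).hom).toLinearMap)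
        (par (W.isInternal Y) * (W.map (b g).hom).toLinearMap) := by
    rw [nm, Finset.mul_sum]
    refine Finset.sum_congr rfl fun g _ => ?_
    have e : (W.map (prodAct a b g).hom).toLinearMap =
        extOp W (W.map (a g).hom).toLinearMap (W.map (b g).hom).toLinearMap :=
      map_prodMap _ _
    rw [e, par_ext, extOp_mul]
  rw [h1] at h
  have h2 := kop_of_ext _ _ (fun g i y hy => by
    have h3 : (W.map (b g).hom) y ∈ W.gr Y i := W.map_mem _ hy
    rw [Module.End.mul_apply, AlgHom.toLinearMap_apply, par, scal_apply _ _ h3]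
    exact Submodule.smul_mem _ _ h3) h
  rw [chOp_eq, Finset.mul_sum]
  refine (congrArg (· ∈ KOp W X X 0) (Finset.sum_congr rfl fun g _ => ?_)).mp h2
  rw [← mul_assoc, par_mul_par, one_mul, mul_smul_comm]

/-- **The sign conjecture from a diagonal quotient.** -/
theorem sign_of_quotient (a : G →* Aut X) (b : G →* Aut Y) (hb : Oriented W b)
    (hab : OccursIn W a b) (h : QuotientSign W (prodAct a b)) : SignStd W X := by
  rw [sign_iff_par]
  have h1 := par_chOp_mem a b (par_nm_mem _ h)
  have hinj : Function.Injective (chOp (act W a) (act W b)) := by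
    apply chOp_injective (act W a) (act W b)
      (LinearMap.mk₂ W.K (fun x y => W.tr Y (x * y))
        (fun x y z => by rw [add_mul, map_add]) (fun c x y => by rw [smul_mul_assoc, map_smul])
        (fun x y z => by rw [mul_add, map_add]) (fun c x y => by rw [mul_smul_comm, map_smul]))
    · intro g x y
      change W.tr Y (W.map (b g⁻¹).hom x * W.map (b g⁻¹).hom y) = W.tr Y (x * y)
      rw [← map_mul]
      exact hb g⁻¹ (x * y)
    · intro x hx
      exact nondeg_right hx
    · intro v hv
      obtain ⟨f, hf, hfv⟩ := hab v hv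
      exact ⟨f, fun g x => hf g⁻¹ x, hfv⟩
  obtain ⟨P, hP⟩ := exists_poly_inv (R := chOp (act W a) (act W b)) (M := ⊤)
    (fun _ _ => Submodule.mem_top) (fun x _ h0 => hinj (by rw [h0, map_zero]))
  have hP1 : chOp (act W a) (act W b) * Polynomial.aeval (chOp (act W a) (act W b)) P = 1 :=
    LinearMap.ext fun x => (hP x Submodule.mem_top).2
  have hk : Polynomial.aeval (chOp (act W a) (act W b)) P ∈ kAlg W X := by
    have h2 : chOp (act W a) (act W b) ∈ kAlg W X := kop_chOp a b
    exact Algebra.adjoin_le (Set.singleton_subset_iff.2 h2)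
      (Polynomial.aeval_mem_adjoin_singleton _ _)
  have h3 : (par (W.isInternal X) * chOp (act W a) (act W b)) *
      Polynomial.aeval (chOp (act W a) (act W b)) P ∈ kAlg W X :=
    (kAlg W X).mul_mem h1 hk
  rw [mul_assoc, hP1, mul_one] at h3
  exact h3

/-! ### Exchange of the factors -/

/-- `Y × X ⟶ X × Y`. -/
noncomputable def sw (X Y : 𝒱.Obj) : Y.prod X ⟶ X.prod Y := Obj.lift (snd Y X) (fst Y X)

lemma sw_conj (f : X ⟶ X) (h : Y ⟶ Y) :
    (sw X Y ≫ prodMap f h) ≫ sw Y X = prodMap h f := by
  have e1 : sw X Y ≫ fst X Y = snd Y X := Obj.lift_fst _ _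
  have e2 : sw X Y ≫ snd X Y = fst Y X := Obj.lift_snd _ _
  have e3 : sw Y X ≫ fst Y X = snd X Y := Obj.lift_fst _ _
  have e4 : sw Y X ≫ snd Y X = fst X Y := Obj.lift_snd _ _
  apply hom_ext'
  · rw [Category.assoc, Category.assoc, e3, prodMap_snd, ← Category.assoc, e2, prodMap_fst]
  · rw [Category.assoc, Category.assoc, e4, prodMap_fst, ← Category.assoc, e1, prodMap_snd]

/-- Pull-backs commute with the parity. -/
lemma par_map (f : Z ⟶ X) (x : W.H X) :
    par (W.isInternal Z) (W.map f x) = W.map f (par (W.isInternal X) x) := by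
  refine gr_induction (W.isInternal X) (p := fun x => par (W.isInternal Z) (W.map f x) =
    W.map f (par (W.isInternal X) x)) ?_ ?_ x
  · intro i x hx
    rw [par, par, scal_apply _ _ hx, scal_apply _ _ (W.map_mem f hx), map_smul]
  · intro x y hx hy
    rw [map_add, map_add, map_add, map_add, hx, hy]

lemma par_nm_swap (a : G →* Aut X) (b : G →* Aut Y)
    (h : par (W.isInternal (X.prod Y)) * nm W (prodAct a b) ∈ KOp W (X.prod Y) (X.prod Y) 0) :
    par (W.isInternal (Y.prod X)) * nm W (prodAct b a) ∈ KOp W (Y.prod X) (Y.prod X) 0 := by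
  have h1 : par (W.isInternal (Y.prod X)) * nm W (prodAct b a) =
      (W.map (sw X Y)).toLinearMap ∘ₗ (par (W.isInternal (X.prod Y)) * nm W (prodAct a b)) ∘ₗ
        (W.map (sw Y X)).toLinearMap := by
    apply LinearMap.ext
    intro x
    change par (W.isInternal (Y.prod X)) (nm W (prodAct b a) x) =
      W.map (sw X Y) (par (W.isInternal (X.prod Y)) (nm W (prodAct a b) (W.map (sw Y X) x)))
    rw [← par_map]
    congr 1
    rw [nm, nm, LinearMap.sum_apply, LinearMap.sum_apply, map_sum]
    refine Finset.sum_congr rfl fun g _ => ?_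
    change W.map (prodAct b a g).hom x =
      W.map (sw X Y) (W.map (prodAct a b g).hom (W.map (sw Y X) x))
    rw [← W.map_comp, ← W.map_comp]
    exact congrArg (fun f => W.map f x) (sw_conj (a g).hom (b g).hom).symm
  rw [h1]
  exact KOp.cast (KOp.comp (kop_map _) (KOp.comp h (kop_map _))) (by ring)

/-- **The sign conjecture for two varieties and for a diagonal quotient of their product.** -/
theorem sign_both (a : G →* Aut X) (b : G →* Aut Y) (ha : Oriented W a) (hb : Oriented W b)
    (hab : OccursIn W a b) (hba : OccursIn W b a) :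
    QuotientSign W (prodAct a b) ↔ SignStd W X ∧ SignStd W Y := by
  constructor
  · intro h
    refine ⟨sign_of_quotient a b hb hab h, ?_⟩
    have h0 := par_nm_swap a b (par_nm_mem _ h)
    rw [sign_iff_par]
    have h1 := par_chOp_mem b a h0
    have hinj : Function.Injective (chOp (act W b) (act W a)) := by
      apply chOp_injective (act W b) (act W a)
        (LinearMap.mk₂ W.K (fun x y => W.tr X (x * y))
          (fun x y z => by rw [add_mul, map_add]) (fun c x y => by rw [smul_mul_assoc, map_smul])
          (fun x y z => by rw [mul_add, map_add]) (fun c x y => by rw [mul_smul_comm, map_smul]))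
      · intro g x y
        change W.tr X (W.map (a g⁻¹).hom x * W.map (a g⁻¹).hom y) = W.tr X (x * y)
        rw [← map_mul]
        exact ha g⁻¹ (x * y)
      · intro x hx
        exact nondeg_right hx
      · intro v hv
        obtain ⟨f, hf, hfv⟩ := hba v hv
        exact ⟨f, fun g x => hf g⁻¹ x, hfv⟩
    obtain ⟨P, hP⟩ := exists_poly_inv (R := chOp (act W b) (act W a)) (M := ⊤)
      (fun _ _ => Submodule.mem_top) (fun x _ h0 => hinj (by rw [h0, map_zero]))
    have hP1 : chOp (act W b) (act W a) * Polynomial.aeval (chOp (act W b) (act W a)) P = 1 :=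
      LinearMap.ext fun x => (hP x Submodule.mem_top).2
    have hk : Polynomial.aeval (chOp (act W b) (act W a)) P ∈ kAlg W Y := by
      have h2 : chOp (act W b) (act W a) ∈ kAlg W Y := kop_chOp b a
      exact Algebra.adjoin_le (Set.singleton_subset_iff.2 h2)
        (Polynomial.aeval_mem_adjoin_singleton _ _)
    have h3 : (par (W.isInternal Y) * chOp (act W b) (act W a)) *
        Polynomial.aeval (chOp (act W b) (act W a)) P ∈ kAlg W Y :=
      (kAlg W Y).mul_mem h1 hk
    rw [mul_assoc, hP1, mul_one] at h3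
    exact h3
  · rintro ⟨h1, h2⟩
    exact quotient_of_sign _ (sign_prod h1 h2)

/-! ### Powers -/

omit [Fintype G] in
lemma oriented_prod {a : G →* Aut X} {b : G →* Aut Y} (ha : Oriented W a) (hb : Oriented W b) :
    Oriented W (prodAct a b) := by
  intro g c
  refine W.kunneth_induction (p := fun c => W.tr (X.prod Y) (W.map (prodAct a b g).hom c) =
    W.tr (X.prod Y) c) ?_ ?_ c
  · intro x y hx hy
    rw [map_add, map_add, map_add, hx, hy]
  · intro i j x _ y _
    change W.tr (X.prod Y) (W.map (prodMap (a g).hom (b g).hom)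
      (W.map (fst X Y) x * W.map (snd X Y) y)) = _
    rw [map_mul, ← W.map_comp, ← W.map_comp, prodMap_fst, prodMap_snd, W.map_comp, W.map_comp,
      W.tr_prod, W.tr_prod, ha, hb]

omit [Fintype G] in
lemma oriented_pw {a : G →* Aut X} (ha : Oriented W a) (n : ℕ) : Oriented W (pwAct a n) := by
  induction n with
  | zero => exact ha
  | succ n ih => exact oriented_prod ha ih

omit [Fintype G] in
/-- The first projection of a power, with the diagonal as a section. -/
lemma exists_first (a : G →* Aut X) (n : ℕ) : ∃ (p : pw X n ⟶ X) (d : X ⟶ pw X n),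
    d ≫ p = 𝟙 X ∧ ∀ g, (pwAct a n g).hom ≫ p = p ≫ (a g).hom := by
  induction n with
  | zero => exact ⟨𝟙 X, 𝟙 X, Category.comp_id _, fun g =>
      (Category.comp_id (a g).hom).trans (Category.id_comp (a g).hom).symm⟩
  | succ n ih =>
    obtain ⟨-, d, -, -⟩ := ih
    exact ⟨fst X (pw X n), Obj.lift (𝟙 X) d, Obj.lift_fst _ _, fun g => prodMap_fst _ _⟩

omit [Fintype G] in
lemma occurs_pw (a : G →* Aut X) (n : ℕ) : OccursIn W a (pwAct a n) := by
  intro v hv
  obtain ⟨p, d, hd, hp⟩ := exists_first a n
  refine ⟨(W.map p).toLinearMap, fun g x => ?_, fun h => hv ?_⟩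
  · change W.map p (W.map (a g).hom x) = W.map (pwAct a n g).hom (W.map p x)
    rw [← W.map_comp, ← W.map_comp, hp]
  · have h1 : W.map d (W.map p v) = 0 := by
      have h2 : W.map p v = 0 := h
      rw [h2, map_zero]
    rwa [← W.map_comp, hd, W.map_id] at h1

lemma sign_pw (h : SignStd W X) (n : ℕ) : SignStd W (pw X n) := by
  induction n with
  | zero => exact h
  | succ n ih => exact sign_prod h ih

/-- **Powers.** -/
theorem sign_powers (a : G →* Aut X) (ha : Oriented W a) (n : ℕ) :
    SignStd W X ↔ QuotientSign W (pwAct a (n + 1)) :=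
  ⟨fun h => quotient_of_sign _ (sign_pw h (n + 1)),
    fun h => sign_of_quotient a (pwAct a n) (oriented_pw ha n) (occurs_pw a n) h⟩

end Pool.Agent.W5h77.CP
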