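import Pool.Agent.W5h93.GR.Sign

/-!
# Partial traces of correspondences
-/

set_option autoImplicit false

open CategoryTheory AlgebraicGeometry Finset

universe u v

namespace Pool.Agent.W5h77.CP

open Pool.Agent.H914 VarClass Obj WeilCohomology

variable {k : Type u} [Field k] {𝒱 : VarClass k} {ops : CycleOps 𝒱}
  {W : WeilCohomology.{u, v} ops} {X Y Z : 𝒱.Obj}

/-- `(X × X) × Y → (X × Y) × (X × Y)`, `((x, x'), y) ↦ ((x, y), (x', y))`. -/
noncomputable def sq (X Y : 𝒱.Obj) : (X.prod X).prod Y ⟶ (X.prod Y).prod (X.prod Y) :=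
  Obj.lift (Obj.lift (fst (X.prod X) Y ≫ fst X X) (snd (X.prod X) Y))
    (Obj.lift (fst (X.prod X) Y ≫ snd X X) (snd (X.prod X) Y))

lemma prod_ext {f g : Z ⟶ X.prod Y} (h1 : f ≫ fst X Y = g ≫ fst X Y)
    (h2 : f ≫ snd X Y = g ≫ snd X Y) : f = g := by
  have e1 : (f ≫ fst X Y).hom = (g ≫ fst X Y).hom := by rw [h1]
  have e2 : (f ≫ snd X Y).hom = (g ≫ snd X Y).hom := by rw [h2]
  apply SmVar.hom_ext
  exact Limits.pullback.hom_ext e1 e2

lemma sq_q1 : sq X Y ≫ q1 X Y = fst (X.prod X) Y := by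
  have e1 : sq X Y ≫ fst (X.prod Y) (X.prod Y) =
      Obj.lift (fst (X.prod X) Y ≫ fst X X) (snd (X.prod X) Y) := Obj.lift_fst _ _
  have e2 : sq X Y ≫ snd (X.prod Y) (X.prod Y) =
      Obj.lift (fst (X.prod X) Y ≫ snd X X) (snd (X.prod X) Y) := Obj.lift_snd _ _
  have e3 : q1 X Y ≫ fst X X = fst (X.prod Y) (X.prod Y) ≫ fst X Y := Obj.lift_fst _ _
  have e4 : q1 X Y ≫ snd X X = snd (X.prod Y) (X.prod Y) ≫ fst X Y := Obj.lift_snd _ _
  apply prod_ext
  · rw [Category.assoc, e3, ← Category.assoc, e1, Obj.lift_fst]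
  · rw [Category.assoc, e4, ← Category.assoc, e2, Obj.lift_fst]

lemma sq_q2 : sq X Y ≫ q2 X Y = snd (X.prod X) Y ≫ diag Y := by
  have e1 : sq X Y ≫ fst (X.prod Y) (X.prod Y) =
      Obj.lift (fst (X.prod X) Y ≫ fst X X) (snd (X.prod X) Y) := Obj.lift_fst _ _
  have e2 : sq X Y ≫ snd (X.prod Y) (X.prod Y) =
      Obj.lift (fst (X.prod X) Y ≫ snd X X) (snd (X.prod X) Y) := Obj.lift_snd _ _
  have e3 : q2 X Y ≫ fst Y Y = fst (X.prod Y) (X.prod Y) ≫ snd X Y := Obj.lift_fst _ _
  have e4 : q2 X Y ≫ snd Y Y = snd (X.prod Y) (X.prod Y) ≫ snd X Y := Obj.lift_snd _ _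
  have e5 : diag Y ≫ fst Y Y = 𝟙 Y := Obj.lift_fst _ _
  have e6 : diag Y ≫ snd Y Y = 𝟙 Y := Obj.lift_snd _ _
  apply prod_ext
  · rw [Category.assoc, e3, ← Category.assoc, e1, Obj.lift_snd, Category.assoc, e5,
      Category.comp_id]
  · rw [Category.assoc, e4, ← Category.assoc, e2, Obj.lift_snd, Category.assoc, e6,
      Category.comp_id]

lemma push_fst (a : W.H X) {p : ℕ} {b : W.H Y} (hb : b ∈ W.gr Y (2 * p)) :
    W.push (fst X Y) (W.map (fst X Y) a * W.map (snd X Y) b) = W.tr Y b • a := by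
  apply W.tr_ext
  intro c
  rw [W.tr_push, mul_assoc, W.even_comm (W.map_mem _ hb), ← mul_assoc, ← map_mul, W.tr_prod,
    smul_mul_assoc, map_smul, smul_eq_mul, mul_comm]

/-- The partial trace of a class on `(X × Y) × (X × Y)`. -/
noncomputable def parT (W : WeilCohomology.{u, v} ops) (X Y : 𝒱.Obj)
    (c : W.H ((X.prod Y).prod (X.prod Y))) : W.H (X.prod X) :=
  W.push (fst (X.prod X) Y) (W.map (sq X Y) c)

lemma parT_add (c d : W.H ((X.prod Y).prod (X.prod Y))) :
    parT W X Y (c + d) = parT W X Y c + parT W X Y d := by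
  rw [parT, map_add, map_add]; rfl

lemma parT_smul (q : W.K) (c : W.H ((X.prod Y).prod (X.prod Y))) :
    parT W X Y (q • c) = q • parT W X Y c := by
  rw [parT, map_smul, map_smul]; rfl

lemma parT_zero : parT W X Y 0 = 0 := by
  rw [parT, map_zero, map_zero]

lemma parT_sum {ι : Type} (s : Finset ι) (c : ι → W.H ((X.prod Y).prod (X.prod Y))) :
    parT W X Y (∑ i ∈ s, c i) = ∑ i ∈ s, parT W X Y (c i) := by
  simp only [parT, map_sum]

lemma parT_mul (A : W.H (X.prod X)) {p : ℕ} {B : W.H (Y.prod Y)} (hB : B ∈ W.gr _ (2 * p)) :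
    parT W X Y (W.map (q1 X Y) A * W.map (q2 X Y) B) = W.tr Y (W.map (diag Y) B) • A := by
  rw [parT, map_mul, ← W.map_comp, ← W.map_comp, sq_q1, sq_q2, W.map_comp,
    push_fst _ (W.map_mem _ hB)]

/-- The partial trace of an algebraic operator is algebraic. -/
lemma parT_mem {c : W.H ((X.prod Y).prod (X.prod Y))}
    (hc : c ∈ spanCycles W ((X.prod Y).prod (X.prod Y)) ((X.prod Y).dim + 0)) :
    W.corr (parT W X Y c) ∈ KOp W X X 0 := by
  induction hc using Submodule.span_induction with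
  | mem c hc =>
    obtain ⟨p, hp, z, hz, rfl⟩ := hc
    have h1 : parT W X Y (W.cl _ z) =
        W.cl _ (ops.push (fst (X.prod X) Y) (ops.pull (sq X Y) z)) := by
      rw [W.cl_push, W.cl_pull]; rfl
    rw [h1]
    have hp' : p = X.dim + Y.dim := by
      rw [dim_prod] at hp
      push_cast at hp
      omega
    refine KOp.gen (p := X.dim) (by ring) (ops.push_mem _ (ops.pull_mem _ hz) ?_)
    have e1 := dim_prod X X
    have e2 := dim_prod (X.prod X) Y
    omega
  | zero => rw [parT_zero, corr_zero]; exact Submodule.zero_mem _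
  | add x y _ _ hx hy => rw [parT_add, corr_add]; exact Submodule.add_mem _ hx hy
  | smul a x _ hx => rw [parT_smul, corr_smul]; exact Submodule.smul_mem _ _ hx

/-- Operators of degree zero come from classes of even degree. -/
lemma exists_even {ψ : Module.End W.K (W.H Y)} (hψ : ∀ i, ∀ a ∈ W.gr Y i, ψ a ∈ W.gr Y i) :
    ∃ B ∈ W.gr (Y.prod Y) (2 * Y.dim), W.corr B = ψ := by
  obtain ⟨B, hB⟩ := (corr_bijective (W := W) (X := Y)).2 ψ
  have hB' : W.corr B = ψ := hB
  refine ⟨proj (W.isInternal (Y.prod Y)) (2 * Y.dim) B, proj_mem _ _ _, ?_⟩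
  apply gr_ext (W.isInternal Y)
  intro i y hy
  apply W.tr_ext
  intro z
  refine gr_induction (W.isInternal Y) (p := fun z => W.tr Y (W.corr
    (proj (W.isInternal (Y.prod Y)) (2 * Y.dim) B) y * z) = W.tr Y (ψ y * z)) ?_ ?_ z
  · intro j z hz
    rw [← hB', corr_apply, corr_apply, W.tr_push, W.tr_push, mul_assoc, mul_assoc]
    have hw : W.map (fst Y Y) y * W.map (snd Y Y) z ∈ W.gr (Y.prod Y) (i + j) :=
      W.mul_mem (W.map_mem _ hy) (W.map_mem _ hz)
    by_cases hij : i + j = 2 * Y.dim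
    · refine gr_induction (W.isInternal (Y.prod Y)) (p := fun B =>
        W.tr (Y.prod Y) (proj (W.isInternal (Y.prod Y)) (2 * Y.dim) B *
          (W.map (fst Y Y) y * W.map (snd Y Y) z)) =
        W.tr (Y.prod Y) (B * (W.map (fst Y Y) y * W.map (snd Y Y) z))) ?_ ?_ B
      · intro l B hB
        by_cases hl : l = 2 * Y.dim
        · subst hl
          rw [proj_same _ hB]
        · rw [proj_ne _ hB hl, zero_mul, map_zero,
            W.tr_eq_zero (W.mul_mem hB hw) (by rw [dim_prod]; omega)]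
      · intro a b ha hb
        rw [map_add, add_mul, add_mul, map_add, map_add, ha, hb]
    · rw [W.tr_eq_zero (W.mul_mem (proj_mem (W.isInternal (Y.prod Y)) (2 * Y.dim) B) hw)
        (by rw [dim_prod]; omega)]
      have h1 : W.tr Y (ψ y * z) = 0 := W.tr_eq_zero (W.mul_mem (hψ i y hy) hz) hij
      rw [← hB', corr_apply, W.tr_push, mul_assoc] at h1
      exact h1.symm
  · intro a b ha hb
    rw [mul_add, mul_add, map_add, map_add, ha, hb]

lemma par_ext : par (W.isInternal (X.prod Y)) =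
    extOp W (par (W.isInternal X)) (par (W.isInternal Y)) := by
  apply LinearMap.ext
  intro x
  refine W.kunneth_induction (p := fun x => par (W.isInternal (X.prod Y)) x =
    extOp W (par (W.isInternal X)) (par (W.isInternal Y)) x) ?_ ?_ x
  · intro a b ha hb
    rw [map_add, map_add, ha, hb]
  · intro i j a ha b hb
    rw [extOp_tmul, par, par, par, scal_apply _ _ (W.mul_mem (W.map_mem _ ha) (W.map_mem _ hb)),
      scal_apply _ _ ha, scal_apply _ _ hb, map_smul, map_smul, smul_mul_assoc, mul_smul_comm,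
      smul_smul, pow_add]

/-- **The partial trace** of an algebraic operator which is a sum of external products of
operators of degree zero. -/
theorem kop_of_ext {ι : Type} [Fintype ι] (φ : ι → Module.End W.K (W.H X))
    (ψ : ι → Module.End W.K (W.H Y)) (hψ : ∀ s, ∀ i, ∀ a ∈ W.gr Y i, ψ s a ∈ W.gr Y i)
    (h : ∑ s, extOp W (φ s) (ψ s) ∈ KOp W (X.prod Y) (X.prod Y) 0) :
    ∑ s, LinearMap.trace W.K (W.H Y) (par (W.isInternal Y) * ψ s) • φ s ∈ KOp W X X 0 := by
  obtain ⟨c, hc, hcE⟩ := mem_KOp_iff.1 h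
  choose A hA using fun s => (corr_bijective (W := W) (X := X)).2 (φ s)
  have hA' : ∀ s, W.corr (A s) = φ s := hA
  choose B hB hB' using fun s => exists_even (hψ s)
  have hc' : c = ∑ s, W.map (q1 X Y) (A s) * W.map (q2 X Y) (B s) := by
    apply (corr_bijective (W := W) (X := X.prod Y)).1
    rw [map_sum]
    change W.corr c = ∑ s, W.corr (W.map (q1 X Y) (A s) * W.map (q2 X Y) (B s))
    rw [hcE]
    refine Finset.sum_congr rfl fun s _ => ?_
    apply ext_kunneth_lin
    intro a b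
    rw [extOp_tmul, corr_ext _ (hB s), hA', hB']
  have h1 : parT W X Y c = ∑ s, W.tr Y (W.map (diag Y) (B s)) • A s := by
    rw [hc', parT_sum]
    exact Finset.sum_congr rfl fun s _ => parT_mul _ (hB s)
  have h2 := parT_mem hc
  rw [h1] at h2
  have h3 : W.corr (∑ s, W.tr Y (W.map (diag Y) (B s)) • A s) =
      ∑ s, LinearMap.trace W.K (W.H Y) (par (W.isInternal Y) * ψ s) • φ s := by
    have h4 := map_sum (⟨⟨fun c => W.corr c, fun c d => W.corr_add c d⟩,
      fun q c => W.corr_smul q c⟩ : W.H (X.prod X) →ₗ[W.K] Module.End W.K (W.H X))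
      (fun s => W.tr Y (W.map (diag Y) (B s)) • A s) Finset.univ
    change W.corr (∑ s, W.tr Y (W.map (diag Y) (B s)) • A s) =
      ∑ s, W.corr (W.tr Y (W.map (diag Y) (B s)) • A s) at h4
    rw [h4]
    refine Finset.sum_congr rfl fun s _ => ?_
    rw [corr_smul, hA', ← hB', trace_par_corr]
  rwa [h3] at h2

end Pool.Agent.W5h77.CP
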